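import Mathlib
import Pool.Agent.H730R3.HD.R33

/-!
Simplicial cohomology of C*-algebras: bounded cocycles `A^n → A*` which are uniformly integrable with
respect to a tracial state are coboundaries.
-/

set_option autoImplicit false

namespace Pool.Agent.Results.MP_263cac_an.UniformlyIntegrable

/-- Let `A` be a unital C*-algebra and `τ` a tracial state on `A`. Let `φ : A^(n+1) → A*` be a bounded
Hochschild cocycle (with `(a · f) x = f (x a)` and `(f · a) x = f (a x)`) such that for every `ε > 0` there is
`R` with `|φ(a)(x)| ≤ ∏ ‖a_i‖ (R τ(x* x)^(1/2) + ε ‖x‖)` for all `a` and `x`. Then `φ` is the coboundary of a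
bounded `n`-linear map `A^n → A*`. -/
theorem result (A : Type) [CStarAlgebra A] (τ : A →ₗ[ℂ] ℂ)
    (h_one : τ 1 = 1) (h_trace : ∀ x y, τ (x * y) = τ (y * x))
    (h_nonneg : ∀ x, 0 ≤ (τ (star x * x)).re) (h_real : ∀ x, (τ (star x * x)).im = 0) (n : ℕ)
    (φ : ContinuousMultilinearMap ℂ (fun _ : Fin (n + 1) => A) (A →L[ℂ] ℂ))
    (hUI : ∀ ε > 0, ∃ R : ℝ, ∀ (a : Fin (n + 1) → A) (x : A),
      ‖φ a x‖ ≤ (∏ i, ‖a i‖) * (R * Real.sqrt ((τ (star x * x)).re) + ε * ‖x‖))
    (hφ : ∀ (a : Fin (n + 2) → A) (x : A),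
        φ (Fin.tail a) (x * a 0)
          + ∑ i : Fin (n + 1), (-1 : ℂ) ^ (i.val + 1) *
              φ (fun j : Fin (n + 1) =>
                if j < i then a j.castSucc
                else if j = i then a j.castSucc * a j.succ
                else a j.succ) x
          + (-1 : ℂ) ^ (n + 2) * φ (Fin.init a) (a (Fin.last (n + 1)) * x) = 0) :
      ∃ ψ : ContinuousMultilinearMap ℂ (fun _ : Fin n => A) (A →L[ℂ] ℂ),
        ∀ (a : Fin (n + 1) → A) (x : A),
          φ a x = ψ (Fin.tail a) (x * a 0)
            + ∑ i : Fin n, (-1 : ℂ) ^ (i.val + 1) *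
                ψ (fun j : Fin n =>
                  if j < i then a j.castSucc
                  else if j = i then a j.castSucc * a j.succ
                  else a j.succ) x
            + (-1 : ℂ) ^ (n + 1) * ψ (Fin.init a) (a (Fin.last n) * x) :=
  H730HC.final_X (τ := τ)
    { one := h_one
      comm := h_trace
      nonneg := h_nonneg
      real := h_real } n φ hUI hφ

end Pool.Agent.Results.MP_263cac_an.UniformlyIntegrable
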